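import Pool.Agent.BEW.StmtsF
import Pool.Agent.Helper39_BEL.GRQ
import Pool.Agent.Helper56_BEL.ENG
import Pool.Agent.Helper17_BEL.GPK

set_option autoImplicit false

namespace Pool.Agent.BEW.H34

open Set Filter Topology MeasureTheory
open scoped InnerProductSpace ENNReal NNReal
open Pool.Agent.BE01 Pool.Agent.BEL Pool.Agent.BEG Pool.Agent.BEH Pool.Agent.BER Pool.Agent.BEW

noncomputable section

section
variable {H : Type} [NormedAddCommGroup H] [InnerProductSpace ℝ H]

lemma pj_apply (e : HilbertBasis ℕ ℝ H) (J : Finset ℕ) (u : H) :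
    PJ e J u = ∑ j ∈ J, ⟪e j, u⟫_ℝ • e j := by
  unfold PJ
  rw [ContinuousLinearMap.sum_apply]
  rfl

lemma pj_tendsto (e : HilbertBasis ℕ ℝ H) (u : H) :
    Tendsto (fun n => PJ e (Finset.range n) u) atTop (𝓝 u) := by
  have h := (e.hasSum_repr u).tendsto_sum_nat
  refine h.congr ?_
  intro n
  rw [pj_apply]
  apply Finset.sum_congr rfl
  intro j _
  rw [HilbertBasis.repr_apply_apply]

lemma pj_e0 (e : HilbertBasis ℕ ℝ H) (n : ℕ) (hn : 1 ≤ n) :
    PJ e (Finset.range n) (e 0) = e 0 := by
  rw [pj_apply, Finset.sum_eq_single 0]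
  · have h := e.orthonormal.1 0
    rw [real_inner_self_eq_norm_sq, h]
    simp
  · intro j _ hj
    rw [e.orthonormal.2 hj, zero_smul]
  · intro h
    exact absurd (Finset.mem_range.2 hn) h


lemma pk_fix [CompleteSpace H] (e : HilbertBasis ℕ ℝ H) (om : ℕ → ℝ)
    (W : ℝ → KK H →L[ℝ] KK H) (G : H → H) (c : ℝ) (n : ℕ) (hn : 1 ≤ n) (Zn : ℝ → KK H)
    (hW : Grp e om W)
    (h : IsFl W (fun u => PJ e (Finset.range n) (G u)) (inj (c • e 0)) Zn) :
    ∀ t, PK e (Finset.range n) (Zn t) = Zn t := by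
  obtain ⟨k1, k2, k3, k4, k5, k6, k7, k8, k9, k10⟩ := Pool.Agent.BEL.H17.gpk H ℕ e om W hW
  have hd : ∀ t, HasDerivAt (fun t => PK e (Finset.range n) (Zn t) - Zn t) 0 t := by
    intro t
    have h1 := ((PK e (Finset.range n)).hasFDerivAt.comp_hasDerivAt t (h.eq t)).sub (h.eq t)
    have e1 : PK e (Finset.range n)
        (-(W (-t) (inj (PJ e (Finset.range n) (G (P2 (W t (Zn t)))))))) -
        (-(W (-t) (inj (PJ e (Finset.range n) (G (P2 (W t (Zn t)))))))) = 0 := by
      rw [map_neg, k1, k3, k7, sub_self]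
    rw [← e1]
    exact h1
  have hconst := is_const_of_deriv_eq_zero (fun t => (hd t).differentiableAt)
    (fun t => (hd t).deriv)
  intro t
  have h2 : PK e (Finset.range n) (Zn t) - Zn t = PK e (Finset.range n) (Zn 0) - Zn 0 :=
    hconst t 0
  rw [h.z0, k3, map_smul, pj_e0 e n hn, sub_self] at h2
  exact sub_eq_zero.1 h2

end

theorem gcn : GcnStmt := by
  intro H _ _ _ e om W F K c Z Zn hW hF hmon hF0 hZ hZn t ht
  obtain ⟨q0, qadd, qnorm, qadj, qcont, qcontZ, qinj, qinjn⟩ :=
    Pool.Agent.BEL.H39.grq H ℕ e om W hW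
  obtain ⟨k1, k2, k3, k4, k5, k6, k7, k8, k9, k10⟩ := Pool.Agent.BEL.H17.gpk H ℕ e om W hW
  have eng := Pool.Agent.BEL.H56.eng Pool.Agent.BEL.H39.grq H ℕ e om W
  have contZ : Continuous Z := continuous_iff_continuousAt.2 fun s => (hZ.eq s).continuousAt
  have contv : Continuous fun s => P2 (W s (Z s)) := P2.continuous.comp (qcontZ Z contZ)
  have contF : Continuous F := hF.continuous
  have hzero : ∀ u, 0 ≤ ⟪F u, u⟫_ℝ := by
    intro u
    have h1 := hmon u 0
    rw [hF0, sub_zero, sub_zero] at h1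
    exact h1
  have hn0 : ‖(inj (c • e 0) : KK H)‖ = |c| := by
    rw [qinjn, norm_smul, e.orthonormal.1 0, mul_one, Real.norm_eq_abs]
  have bZ : ∀ r, 0 ≤ r → ‖Z r‖ ≤ |c| := by
    intro r hr
    have h1 := (eng Z (fun s => F (P2 (W s (Z s)))) hW (contF.comp contv) hZ.eq).2 0 r
    have h2 : 0 ≤ ∫ s in (0 : ℝ)..r, ⟪F (P2 (W s (Z s))), P2 (W s (Z s))⟫_ℝ :=
      intervalIntegral.integral_nonneg_of_forall hr (fun s => hzero _)
    rw [hZ.z0, hn0] at h1
    exact (pow_le_pow_iff_left₀ (norm_nonneg _) (abs_nonneg c) two_ne_zero).1 (by linarith)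
  -- the function `ρ`
  set ρ : ℕ → ℝ → ℝ := fun n r =>
    K * ‖P2 (W r (Z r)) - PJ e (Finset.range n) (P2 (W r (Z r)))‖ +
      ‖F (P2 (W r (Z r))) - PJ e (Finset.range n) (F (P2 (W r (Z r))))‖ with hρ
  have contρ : ∀ n, Continuous (ρ n) := by
    intro n
    rw [hρ]
    have h1 : Continuous fun s => F (P2 (W s (Z s))) := contF.comp contv
    exact (continuous_const.mul
      ((contv.sub ((PJ e (Finset.range n)).continuous.comp contv)).norm)).add
      ((h1.sub ((PJ e (Finset.range n)).continuous.comp h1)).norm)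
  have key : ∀ n, 1 ≤ n → ‖Zn n t - Z t‖ ^ 2 ≤ ∫ r in (0 : ℝ)..t, 4 * |c| * ρ n r := by
    intro n hn
    have hz := hZn n hn
    have contZn : Continuous (Zn n) :=
      continuous_iff_continuousAt.2 fun s => (hz.eq s).continuousAt
    have contvn : Continuous fun s => P2 (W s (Zn n s)) := P2.continuous.comp (qcontZ _ contZn)
    have hfix := pk_fix e om W F c n hn (Zn n) hW hz
    have hPv : ∀ s, PJ e (Finset.range n) (P2 (W s (Zn n s))) = P2 (W s (Zn n s)) := by
      intro s
      rw [← k2, k1, hfix]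
    have contPF : Continuous fun s => PJ e (Finset.range n) (F (P2 (W s (Zn n s)))) :=
      (PJ e (Finset.range n)).continuous.comp (contF.comp contvn)
    have bZn : ∀ r, 0 ≤ r → ‖Zn n r‖ ≤ |c| := by
      intro r hr
      have h1 := (eng (Zn n) (fun s => PJ e (Finset.range n) (F (P2 (W s (Zn n s))))) hW
        contPF hz.eq).2 0 r
      have h2 : 0 ≤ ∫ s in (0 : ℝ)..r,
          ⟪PJ e (Finset.range n) (F (P2 (W s (Zn n s)))), P2 (W s (Zn n s))⟫_ℝ := by
        apply intervalIntegral.integral_nonneg_of_forall hr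
        intro s
        rw [k6, hPv]
        exact hzero _
      rw [hz.z0, hn0] at h1
      exact (pow_le_pow_iff_left₀ (norm_nonneg _) (abs_nonneg c) two_ne_zero).1 (by linarith)
    have hD : ∀ s, HasDerivAt (fun s => Zn n s - Z s)
        (-(W (-s) (inj (PJ e (Finset.range n) (F (P2 (W s (Zn n s)))) -
          F (P2 (W s (Z s))))))) s := by
      intro s
      have h1 := (hz.eq s).sub (hZ.eq s)
      have h2 : -(W (-s) (inj (PJ e (Finset.range n) (F (P2 (W s (Zn n s))))))) -
          -(W (-s) (inj (F (P2 (W s (Z s)))))) =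
          -(W (-s) (inj (PJ e (Finset.range n) (F (P2 (W s (Zn n s)))) -
          F (P2 (W s (Z s)))))) := by
        rw [map_sub, map_sub]
        abel
      rw [← h2]
      exact h1
    have hE := (eng (fun s => Zn n s - Z s)
      (fun s => PJ e (Finset.range n) (F (P2 (W s (Zn n s)))) - F (P2 (W s (Z s)))) hW
      (contPF.sub (contF.comp contv)) hD)
    have hE2 := hE.2 0 t
    have h00 : Zn n 0 - Z 0 = 0 := by rw [hz.z0, hZ.z0, sub_self]
    simp only [h00, norm_zero] at hE2
    have hcontI : Continuous fun r => ⟪PJ e (Finset.range n) (F (P2 (W r (Zn n r)))) -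
        F (P2 (W r (Z r))), P2 (W r (Zn n r - Z r))⟫_ℝ :=
      (contPF.sub (contF.comp contv)).inner hE.1
    have hle : ‖Zn n t - Z t‖ ^ 2 = ∫ r in (0 : ℝ)..t,
        -2 * ⟪PJ e (Finset.range n) (F (P2 (W r (Zn n r)))) - F (P2 (W r (Z r))),
          P2 (W r (Zn n r - Z r))⟫_ℝ := by
      rw [intervalIntegral.integral_const_mul]
      linarith
    rw [hle]
    apply intervalIntegral.integral_mono_on ht
    · exact (continuous_const.mul hcontI).intervalIntegrable _ _
    · exact (continuous_const.mul (contρ n)).intervalIntegrable _ _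
    · intro r hr
      have hvn : PJ e (Finset.range n) (P2 (W r (Zn n r))) = P2 (W r (Zn n r)) := hPv r
      have hnd : ‖P2 (W r (Zn n r)) - P2 (W r (Z r))‖ ≤ 2 * |c| := by
        calc ‖P2 (W r (Zn n r)) - P2 (W r (Z r))‖ ≤ ‖P2 (W r (Zn n r))‖ + ‖P2 (W r (Z r))‖ :=
              norm_sub_le _ _
          _ ≤ ‖W r (Zn n r)‖ + ‖W r (Z r)‖ := add_le_add (k10 _).1 (k10 _).1
          _ = ‖Zn n r‖ + ‖Z r‖ := by rw [qnorm, qnorm]
          _ ≤ 2 * |c| := by linarith [bZn r hr.1, bZ r hr.1]
      rw [map_sub, map_sub]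
      show -2 * _ ≤ 4 * |c| * (K * ‖P2 (W r (Z r)) - PJ e (Finset.range n) (P2 (W r (Z r)))‖ +
        ‖F (P2 (W r (Z r))) - PJ e (Finset.range n) (F (P2 (W r (Z r))))‖)
      generalize P2 (W r (Zn n r)) = a at *
      generalize P2 (W r (Z r)) = b at *
      have e1 : PJ e (Finset.range n) (F a) - F b =
          PJ e (Finset.range n) (F a - F b) - (F b - PJ e (Finset.range n) (F b)) := by
        rw [map_sub]
        abel
      have e2 : ⟪PJ e (Finset.range n) (F a - F b), a - b⟫_ℝ =
          ⟪F a - F b, a - b⟫_ℝ + ⟪F a - F b, b - PJ e (Finset.range n) b⟫_ℝ := by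
        rw [k6, map_sub, hvn, ← inner_add_right]
        congr 1
        abel
      rw [e1, inner_sub_left, e2]
      have i1 := hmon a b
      have i2 : -⟪F a - F b, b - PJ e (Finset.range n) b⟫_ℝ ≤
          (K * ‖a - b‖) * ‖b - PJ e (Finset.range n) b‖ := by
        have h1 := abs_real_inner_le_norm (F a - F b) (b - PJ e (Finset.range n) b)
        have h2 : ‖F a - F b‖ ≤ K * ‖a - b‖ := hF.norm_sub_le a b
        have h3 := mul_le_mul_of_nonneg_right h2 (norm_nonneg (b - PJ e (Finset.range n) b))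
        have h4 := neg_abs_le ⟪F a - F b, b - PJ e (Finset.range n) b⟫_ℝ
        linarith
      have i3 : ⟪F b - PJ e (Finset.range n) (F b), a - b⟫_ℝ ≤
          ‖F b - PJ e (Finset.range n) (F b)‖ * ‖a - b‖ := real_inner_le_norm _ _
      have i4 := mul_le_mul_of_nonneg_right hnd
        (add_nonneg (mul_nonneg K.coe_nonneg (norm_nonneg (b - PJ e (Finset.range n) b)))
          (norm_nonneg (F b - PJ e (Finset.range n) (F b))))
      nlinarith
  have hlim : Tendsto (fun n => ∫ r in (0 : ℝ)..t, 4 * |c| * ρ n r) atTop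
      (𝓝 (∫ r in (0 : ℝ)..t, (0 : ℝ))) := by
    apply intervalIntegral.tendsto_integral_filter_of_dominated_convergence
      (fun r => 4 * |c| * (K * ‖P2 (W r (Z r))‖ + ‖F (P2 (W r (Z r)))‖))
    · exact Eventually.of_forall fun n =>
        (continuous_const.mul (contρ n)).aestronglyMeasurable
    · refine Eventually.of_forall fun n => ae_of_all _ fun r _ => ?_
      have hnn : 0 ≤ ρ n r := by
        rw [hρ]
        positivity
      rw [Real.norm_eq_abs, abs_of_nonneg (by positivity)]
      apply mul_le_mul_of_nonneg_left _ (by positivity)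
      rw [hρ]
      exact add_le_add (mul_le_mul_of_nonneg_left (k8 _ _).1 K.coe_nonneg) (k8 _ _).1
    · apply Continuous.intervalIntegrable
      exact continuous_const.mul ((continuous_const.mul contv.norm).add
        (contF.comp contv).norm)
    · refine ae_of_all _ fun r _ => ?_
      have h1 : Tendsto (fun n => ‖P2 (W r (Z r)) - PJ e (Finset.range n) (P2 (W r (Z r)))‖)
          atTop (𝓝 0) := by
        have := (tendsto_const_nhds (x := P2 (W r (Z r)))).sub (pj_tendsto e (P2 (W r (Z r))))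
        rw [sub_self] at this
        have h2 := this.norm
        rw [norm_zero] at h2
        exact h2
      have h2 : Tendsto (fun n => ‖F (P2 (W r (Z r))) -
          PJ e (Finset.range n) (F (P2 (W r (Z r))))‖) atTop (𝓝 0) := by
        have := (tendsto_const_nhds (x := F (P2 (W r (Z r))))).sub
          (pj_tendsto e (F (P2 (W r (Z r)))))
        rw [sub_self] at this
        have h2 := this.norm
        rw [norm_zero] at h2
        exact h2
      have h3 := ((h1.const_mul (K : ℝ)).add h2).const_mul (4 * |c|)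
      simp only [mul_zero, add_zero] at h3
      exact h3
  rw [intervalIntegral.integral_zero] at hlim
  have hsq : Tendsto (fun n => ‖Zn n t - Z t‖ ^ 2) atTop (𝓝 0) := by
    apply squeeze_zero' (Eventually.of_forall fun n => sq_nonneg _) _ hlim
    exact (eventually_ge_atTop 1).mono fun n hn => key n hn
  rw [tendsto_iff_norm_sub_tendsto_zero]
  have h5 := (Real.continuous_sqrt.tendsto 0).comp hsq
  rw [Real.sqrt_zero] at h5
  refine h5.congr fun n => ?_
  exact Real.sqrt_sq (norm_nonneg _)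

end

end Pool.Agent.BEW.H34
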